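import Pool.Agent.Q148.LadderIdx

set_option autoImplicit false

namespace Pool.Agent.Results.MP_eb7acf_gt.OrderedOmegaBase

open Pool.Agent.Q148.Ladder

/-- There is a linearly ordered abelian topological group (order topology, order compatible with the
group operation) with an `ω^ω`-base and without a suitable set. -/
theorem result :
    ∃ (G : Type) (_ : AddCommGroup G) (_ : LinearOrder G) (_ : IsOrderedAddMonoid G)
      (_ : TopologicalSpace G) (_ : OrderTopology G),
      IsTopologicalAddGroup G ∧ HasOmegaBase G ∧ ¬ ∃ S : Set G, IsSuitable S :=
  ⟨LO Wb, inferInstance, inferInstance, inferInstance, inferInstance, inferInstance,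
    inferInstance, omegaBase_LO, fun ⟨S, hS⟩ => LO.no_suitable regIdx_Wb S hS⟩

end Pool.Agent.Results.MP_eb7acf_gt.OrderedOmegaBase
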